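import Pool.Agent.FleaC.Main

set_option autoImplicit false

namespace Pool.Agent.Results.MP_376dfa_nt.ComputableIffBounded

open Pool.Agent.FleaC

/-- Approximation of the largest missed area from below, and: it is computable if and only if it is
bounded by a computable function. -/
theorem result (deg : Bool) :
    (∃ g : ℕ → ℕ → ℕ, Primrec₂ g ∧ (∀ N, Monotone (g N)) ∧
      (ConjC deg → ∀ N t, g N t ≤ f2 deg N ∧ (f2 deg N ≤ t → g N t = f2 deg N))) ∧
    (ConjC deg → (Computable (f2 deg) ↔ ∃ h : ℕ → ℕ, Computable h ∧ ∀ N, f2 deg N ≤ h N)) ∧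
    (ConjC deg → (Primrec (f2 deg) ↔ ∃ h : ℕ → ℕ, Primrec h ∧ ∀ N, f2 deg N ≤ h N)) ∧
    ((ConjC deg ∧ Computable (f2 deg)) ↔ ∃ h : ℕ → ℕ, Computable h ∧
      ∀ (N D : ℕ) (A B C : GaussianInt), Adm deg A B C → SidesLe N A B C → Missed A B C D →
        D ≤ h N) := by
  refine ⟨⟨g2 deg, pr_g2 deg, g2_mono deg, fun hC N t => ⟨g2_le hC N t, fun h => g2_eq hC h⟩⟩,
    computable_iff_bounded, primrec_iff_bounded, (effective_iff deg).trans ?_⟩
  constructor
  · rintro ⟨h, hc, hN⟩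
    exact ⟨h, hc, fun N D A B C h1 h2 h3 => hN N D ⟨A, B, C, h1, h2, h3⟩⟩
  · rintro ⟨h, hc, hN⟩
    refine ⟨h, hc, ?_⟩
    rintro N D ⟨A, B, C, h1, h2, h3⟩
    exact hN N D A B C h1 h2 h3

end Pool.Agent.Results.MP_376dfa_nt.ComputableIffBounded
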