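import Pool.Agent.FleaC.Main

set_option autoImplicit false

namespace Pool.Agent.Results.MP_376dfa_nt.OccurrenceDecidable

open Pool.Agent.FleaC

/-- If the area `D / 2` occurs for `A B C`, it occurs after a bounded number of moves; occurrence
is a primitive recursive predicate of the coordinates and `D`. -/
theorem result :
    (∀ (A B C : GaussianInt) (D : ℕ), Distinct A B C → Occurs A B C D →
      ∃ n ≤ 4 * (dist2 A B + dist2 B C + dist2 C A) ^ 2 + 16 * D ^ 2 +
          2 * (dist2 A B + dist2 B C + dist2 C A),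
        ∃ m : ℕ → Multiset GaussianInt, m 0 = {A, B, C} ∧ (∀ i < n, Move (m i) (m (i + 1))) ∧
          ∃ P Q T : GaussianInt, m n = {P, Q, T} ∧ area2 P Q T = D) ∧
    PrimrecPred fun x : ((ℤ × ℤ) × (ℤ × ℤ) × (ℤ × ℤ)) × ℕ =>
      Distinct (pz x.1.1) (pz x.1.2.1) (pz x.1.2.2) ∧
        Occurs (pz x.1.1) (pz x.1.2.1) (pz x.1.2.2) x.2 :=
  ⟨fun _ _ _ _ hd h => occurs_moves hd h, pr_occZ⟩

end Pool.Agent.Results.MP_376dfa_nt.OccurrenceDecidable
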