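import Pool.Agent.FleaU.Evr
import Pool.Agent.FleaU.Eig2

set_option autoImplicit false

namespace Pool.Agent.Results.MP_376dfa_nt.SexticGrowth

open Pool.Agent.FleaC Pool.Agent.FleaU

/-- For `N ≥ 72` a non-degenerate primitive triangle with sides at most `N` misses an area `D / 2`
with `D` odd and `D ≥ N ^ 6 / 3000000000`; in particular the largest missed area grows at least like
`N ^ 6`. More generally every bound `W T ≤ K * T ^ t` for the orbit of the unit triangle gives the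
exponent `2 * t / (t - 1)`, and every triangle no doubled area below `s` occurs for misses an odd
`D` of the order `s ^ (t / (t - 1))`; `t = 4 / 3` is such an exponent, which gives `N ^ 8` and
`s ^ 4`. -/
theorem result :
    (∀ N : ℕ, 72 ≤ N → ∃ A B C : GaussianInt, Adm false A B C ∧ SidesLe N A B C ∧
      ∃ D : ℕ, ¬ Occurs A B C D ∧ Odd D ∧ N ^ 6 ≤ 3000000000 * D) ∧
    (∀ deg : Bool, ConjC deg → ∀ N : ℕ, 72 ≤ N → N ^ 6 ≤ 3000000000 * f2 deg N) ∧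
    (∀ t K : ℝ, 1 < t → (∀ T : ℕ, 1 ≤ T → (W T : ℝ) ≤ K * (T : ℝ) ^ t) →
      ∃ e : ℝ, 0 < e ∧
        (∀ N : ℕ, 72 ≤ N →
          (∃ A B C : GaussianInt, Adm false A B C ∧ SidesLe N A B C ∧
            ∃ D : ℕ, ¬ Occurs A B C D ∧ Odd D ∧ e * (N : ℝ) ^ (2 * t / (t - 1)) ≤ D) ∧
          (∀ deg : Bool, ConjC deg → e * (N : ℝ) ^ (2 * t / (t - 1)) ≤ f2 deg N)) ∧
        (∀ (A B C : GaussianInt) (s : ℕ), Distinct A B C → 2 ≤ s →
          (∀ D : ℕ, Occurs A B C D → s ≤ D) →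
          ∃ D : ℕ, ¬ Occurs A B C D ∧ Odd D ∧ e * (s : ℝ) ^ (t / (t - 1)) ≤ D)) ∧
    (∃ K : ℝ, ∀ T : ℕ, (W T : ℝ) ≤ K * (T : ℝ) ^ (4 / 3 : ℝ)) ∧
    (∃ e : ℝ, 0 < e ∧
      (∀ N : ℕ, 72 ≤ N →
        (∃ A B C : GaussianInt, Adm false A B C ∧ SidesLe N A B C ∧
          ∃ D : ℕ, ¬ Occurs A B C D ∧ Odd D ∧ e * (N : ℝ) ^ 8 ≤ D) ∧
        (∀ deg : Bool, ConjC deg → e * (N : ℝ) ^ 8 ≤ f2 deg N)) ∧
      (∀ (A B C : GaussianInt) (s : ℕ), Distinct A B C → 2 ≤ s →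
        (∀ D : ℕ, Occurs A B C D → s ≤ D) →
        ∃ D : ℕ, ¬ Occurs A B C D ∧ Odd D ∧ e * (s : ℝ) ^ 4 ≤ D)) := by
  have key : ∀ {A B C : GaussianInt} {D N : ℕ} (deg : Bool), ConjC deg → Adm false A B C →
      SidesLe N A B C → Missed A B C D → D ≤ f2 deg N := by
    intro A B C D N deg hC h1 h2 h3
    have h1' : Adm deg A B C := by
      refine ⟨h1.1, h1.2.1, ?_⟩
      rcases h1.2.2 with h | h
      · exact absurd h (by simp)
      · exact Or.inr h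
    exact bad_le hC ⟨A, B, C, h1', h2, h3⟩
  have main : ∀ t K : ℝ, 1 < t → (∀ T : ℕ, 1 ≤ T → (W T : ℝ) ≤ K * (T : ℝ) ^ t) →
      ∃ e : ℝ, 0 < e ∧
        (∀ N : ℕ, 72 ≤ N →
          (∃ A B C : GaussianInt, Adm false A B C ∧ SidesLe N A B C ∧
            ∃ D : ℕ, ¬ Occurs A B C D ∧ Odd D ∧ e * (N : ℝ) ^ (2 * t / (t - 1)) ≤ D) ∧
          (∀ deg : Bool, ConjC deg → e * (N : ℝ) ^ (2 * t / (t - 1)) ≤ f2 deg N)) ∧
        (∀ (A B C : GaussianInt) (s : ℕ), Distinct A B C → 2 ≤ s →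
          (∀ D : ℕ, Occurs A B C D → s ≤ D) →
          ∃ D : ℕ, ¬ Occurs A B C D ∧ Odd D ∧ e * (s : ℝ) ^ (t / (t - 1)) ≤ D) := by
    intro t K ht hW
    obtain ⟨e1, he1, h⟩ := Pool.Agent.FleaU.ref_growth ht hW
    obtain ⟨e2, he2, h'⟩ := Pool.Agent.FleaU.ref_orbit ht hW
    refine ⟨min e1 e2, lt_min he1 he2, fun N hN => ?_, fun A B C s hd hs ho => ?_⟩
    · obtain ⟨A, B, C, h1, h2, D, h3, h4, h5⟩ := h N hN
      have h6 : min e1 e2 * (N : ℝ) ^ (2 * t / (t - 1)) ≤ D :=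
        (mul_le_mul_of_nonneg_right (min_le_left _ _) (by positivity)).trans h5
      refine ⟨⟨A, B, C, h1, h2, D, h3.1, Nat.odd_iff.2 h4, h6⟩, fun deg hC => h6.trans ?_⟩
      exact_mod_cast key deg hC h1 h2 h3
    · obtain ⟨D, h1, h2, h3⟩ := h' A B C s hd hs ho
      exact ⟨D, h1, h2, (mul_le_mul_of_nonneg_right (min_le_right _ _) (by positivity)).trans h3⟩
  refine ⟨?_, ?_, main, Pool.Agent.FleaU.W_le43, ?_⟩
  · intro N hN
    obtain ⟨A, B, C, h1, h2, D, h3, h4, h5⟩ := Pool.Agent.FleaU.sextic N hN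
    exact ⟨A, B, C, h1, h2, D, h3.1, Nat.odd_iff.2 h4, h5⟩
  · intro deg hC N hN
    obtain ⟨A, B, C, h1, h2, D, h3, h4, h5⟩ := Pool.Agent.FleaU.sextic N hN
    exact h5.trans (Nat.mul_le_mul_left _ (key deg hC h1 h2 h3))
  · obtain ⟨K, hK⟩ := Pool.Agent.FleaU.W_le43
    obtain ⟨e, he, h1, h2⟩ := main (4 / 3) K (by norm_num) (fun T _ => hK T)
    have q1 : (2 * (4 / 3) / (4 / 3 - 1) : ℝ) = ((8 : ℕ) : ℝ) := by norm_num
    have q2 : (4 / 3 / (4 / 3 - 1) : ℝ) = ((4 : ℕ) : ℝ) := by norm_num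
    refine ⟨e, he, fun N hN => ?_, fun A B C s hd hs ho => ?_⟩
    · have h3 := h1 N hN
      rw [q1, Real.rpow_natCast] at h3
      exact h3
    · have h3 := h2 A B C s hd hs ho
      rw [q2, Real.rpow_natCast] at h3
      exact h3

end Pool.Agent.Results.MP_376dfa_nt.SexticGrowth
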