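import Pool.Agent.FleaU.Sext3

set_option autoImplicit false

namespace Pool.Agent.Results.MP_376dfa_nt.UniformDensity

open Pool.Agent.FleaC

/-- All primitive triangles with sides at most `N` simultaneously: few missed areas in every window,
attained areas in every residue class and every window of polynomial length, and the largest length
at which a positive proportion of the areas is missed is a primitive recursive function of
polynomial growth. -/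
theorem result : ∃ (η : ℝ) (A K : ℕ), 0 < η ∧
    (∀ N Y X : ℕ, 1 ≤ N → 1 ≤ X →
      (({D : ℕ | Y ≤ D ∧ D < Y + X ∧ ∃ P Q R : GaussianInt, Adm true P Q R ∧ SidesLe N P Q R ∧
        ¬ Occurs P Q R D}.ncard : ℕ) : ℝ) ≤ K * (N : ℝ) ^ A * (X : ℝ) ^ (1 - η)) ∧
    (∀ N q r Y : ℕ, 1 ≤ N → 1 ≤ q → ∃ D : ℕ, Y ≤ D ∧ D < Y + K * (N * q) ^ A ∧ D % q = r % q ∧
      ∀ P Q R : GaussianInt, Adm true P Q R → SidesLe N P Q R → Occurs P Q R D) ∧
    (∀ deg : Bool, ∃ F : ℕ → ℕ → ℕ, Primrec₂ F ∧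
      (∀ N q : ℕ,
        (F N q ≠ 0 → F N q < q * {D : ℕ | D < F N q ∧ ∃ P Q R : GaussianInt,
          Adm deg P Q R ∧ SidesLe N P Q R ∧ Missed P Q R D}.ncard) ∧
        ∀ X : ℕ, F N q < X → q * {D : ℕ | D < X ∧ ∃ P Q R : GaussianInt,
          Adm deg P Q R ∧ SidesLe N P Q R ∧ Missed P Q R D}.ncard ≤ X) ∧
      (∀ N q : ℕ, 1 ≤ N → 1 ≤ q → F N q ≤ K * (N * q) ^ A) ∧
      ∀ N q : ℕ, 72 ≤ N → 3 ≤ q → N ^ 6 ≤ 3000000000 * F N q) ∧
    ∀ deg : Bool, ConjC deg → ∀ N : ℕ, 1 ≤ N →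
      {D : ℕ | ∃ P Q R : GaussianInt, Adm deg P Q R ∧ SidesLe N P Q R ∧ Missed P Q R D}.Finite ∧
      (({D : ℕ | ∃ P Q R : GaussianInt, Adm deg P Q R ∧ SidesLe N P Q R ∧
        Missed P Q R D}.ncard : ℕ) : ℝ) ≤ K * (N : ℝ) ^ A * ((f2 deg N : ℝ) + 1) ^ (1 - η) := by
  classical
  obtain ⟨η, C5, A5, h0, h1, hC, hmain⟩ := Pool.Agent.FleaU.all_tri
  obtain ⟨A, K, hA, hK, hw⟩ := Pool.Agent.FleaU.window h0 h1 hC hmain
  have hKR : (1 : ℝ) ≤ K := hC.trans hK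
  have hK1 : 1 ≤ K := by exact_mod_cast hKR
  have hwin : ∀ N Y X : ℕ, 1 ≤ N → 1 ≤ X →
      (({D : ℕ | Y ≤ D ∧ D < Y + X ∧ ∃ P Q R : GaussianInt, Adm true P Q R ∧ SidesLe N P Q R ∧
        ¬ Occurs P Q R D}.ncard : ℕ) : ℝ) ≤ K * (N : ℝ) ^ (A + 1) * (X : ℝ) ^ (1 - η) := by
    intro N Y X hN hX
    rw [Pool.Agent.FleaU.ncard_window]
    refine (hmain N Y X hN hX).trans ?_
    have hNR : (1 : ℝ) ≤ N := by exact_mod_cast hN
    refine mul_le_mul_of_nonneg_right ?_ (Real.rpow_nonneg (Nat.cast_nonneg X) _)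
    exact mul_le_mul hK (pow_le_pow_right₀ hNR (by omega)) (by positivity) (by linarith)
  refine ⟨η, A + 1, K, h0, hwin, ?_, ?_, ?_⟩
  · intro N q r Y hN hq
    obtain ⟨D, d1, d2, d3, d4⟩ := Pool.Agent.FleaU.progression hw hK1 hN hq r Y
    refine ⟨D, d1, d2, d3, fun P Q R hA' hs => ?_⟩
    by_contra hno
    exact d4 ⟨P, Q, R, hA', hs, hno⟩
  · intro deg
    obtain ⟨F, hF, hF2⟩ := Pool.Agent.FleaU.proportion hw deg
    refine ⟨F, hF, fun N q => ⟨(hF2 N q).2.2, (hF2 N q).2.1⟩, fun N q hN hq => ?_,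
      fun N q hN hq => ?_⟩
    · refine (hF2 N q).1.trans (Nat.mul_le_mul_left _ ?_)
      exact Nat.pow_le_pow_right (Nat.mul_pos hN hq) (Nat.le_succ _)
    · refine Pool.Agent.FleaU.low3 (deg := deg) hN hq fun X hX => ?_
      rw [Pool.Agent.FleaU.cnt_eq]
      exact (hF2 N q).2.1 X hX
  · intro deg hC N hN
    refine ⟨bad_finite hC N, ?_⟩
    have h2 := hwin N 0 (f2 deg N + 1) hN (Nat.succ_pos _)
    push_cast at h2
    refine le_trans ?_ h2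
    have h3 : {D : ℕ | ∃ P Q R : GaussianInt, Adm deg P Q R ∧ SidesLe N P Q R ∧ Missed P Q R D} ⊆
        {D : ℕ | 0 ≤ D ∧ D < 0 + (f2 deg N + 1) ∧ ∃ P Q R : GaussianInt, Adm true P Q R ∧
          SidesLe N P Q R ∧ ¬ Occurs P Q R D} := by
      intro D hD
      have h4 : D ≤ f2 deg N := bad_le hC hD
      exact ⟨Nat.zero_le _, by omega, Pool.Agent.FleaU.non_of_bad hD⟩
    exact_mod_cast Set.ncard_le_ncard h3 ((Set.finite_Iio (0 + (f2 deg N + 1))).subset fun D hD => hD.2.1)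

end Pool.Agent.Results.MP_376dfa_nt.UniformDensity
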